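import Pool.Agent.H99.CE.Targets

/-!
# Row KHT: sum of the powers of the kernel
-/

set_option autoImplicit false

open MeasureTheory ProbabilityTheory Filter Topology
open scoped ENNReal
open Pool.Agent.H95 Pool.Agent.H95.Cop Pool.Agent.H96.Cop Pool.Agent.H99.CE

namespace Pool.Agent.H97.CE

private theorem sum_pow (s : ℝ) (hs : 0 < s) (n : ℕ) :
    ∑ i ∈ Finset.range n, ((i : ℝ) + 1) ^ (-(1 + s)) ≤ 1 + 1 / s := by
  have key : ∀ n : ℕ, ∑ i ∈ Finset.range (n + 1), ((i : ℝ) + 1) ^ (-(1 + s)) ≤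
      1 + 1 / s * (1 - ((n : ℝ) + 1) ^ (-s)) := by
    intro n
    induction n with
    | zero => simp
    | succ n ih =>
      rw [Finset.sum_range_succ]
      have h1 := rpow_tele1 s hs (n + 1) (by omega)
      push_cast at h1 ⊢
      have h2 : ((n : ℝ) + 1 + 1) ^ (-(1 + s)) ≤
          1 / s * (((n : ℝ) + 1) ^ (-s) - ((n : ℝ) + 1 + 1) ^ (-s)) := by
        rw [one_div, ← div_eq_inv_mul, le_div_iff₀ hs]
        linarith
      linarith
  have h0 : (0 : ℝ) < 1 / s := by positivity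
  cases n with
  | zero => simp; positivity
  | succ n =>
    refine (key n).trans ?_
    have h1 : 0 ≤ ((n : ℝ) + 1) ^ (-s) := by positivity
    nlinarith

private theorem harm (M n : ℕ) :
    ∑ i ∈ Finset.range n, (if i + 2 ≤ M then 1 / ((i : ℝ) + 1) else 0) ≤ 1 + Real.log M := by
  have h1 : ∑ i ∈ Finset.range n, (if i + 2 ≤ M then 1 / ((i : ℝ) + 1) else 0) ≤
      ∑ i ∈ Finset.range M, 1 / ((i : ℝ) + 1) := by
    rw [← Finset.sum_filter]
    refine Finset.sum_le_sum_of_subset_of_nonneg ?_ fun i _ _ => by positivity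
    intro i hi
    rw [Finset.mem_filter] at hi
    rw [Finset.mem_range]
    omega
  refine h1.trans ?_
  have h2 := harmonic_le_one_add_log M
  refine le_trans (le_of_eq ?_) h2
  unfold harmonic
  push_cast
  refine Finset.sum_congr rfl fun i _ => ?_
  rw [one_div]

theorem pf_KHT : T_KHT := by
  intro α t θ s η M L hα ht hθ hθ1 hs hs0 hη hη1 hM
  have hwq : ∀ D : ℕ, 0 ≤ wq α D := fun D => Real.rpow_nonneg (Nat.cast_nonneg _) _
  have he : ∀ D : ℕ, (0 : ℝ) ≤ (if D ≤ M then 1 else η) := by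
    intro D
    split_ifs
    · norm_num
    · exact hη
  -- the terms
  set F : ℕ → ℝ := fun D => t ^ (-θ) * (((max (D - 1) 1 : ℕ) : ℝ) ^ (-(1 + s)) *
    (if D ≤ M then 1 else η ^ θ)) with hF
  have hterm : ∀ D : ℕ, Kd α t η M D ^ θ = ENNReal.ofReal (F D) := by
    intro D
    unfold Kd
    rw [ENNReal.ofReal_rpow_of_nonneg (mul_nonneg (div_nonneg (hwq D) ht.le) (he D)) hθ.le]
    congr 1
    rw [Real.mul_rpow (div_nonneg (hwq D) ht.le) (he D), Real.div_rpow (hwq D) ht.le]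
    unfold wq
    rw [← Real.rpow_mul (Nat.cast_nonneg _), hF]
    have e1 : -(1 + α) * θ = -(1 + s) := by rw [← hs]; ring
    have e2 : (if D ≤ M then (1 : ℝ) else η) ^ θ = if D ≤ M then 1 else η ^ θ := by
      split_ifs
      · exact Real.one_rpow _
      · rfl
    rw [e1, e2, Real.rpow_neg ht.le]
    field_simp
  have hFn : ∀ D, 0 ≤ F D := by
    intro D
    have h1 : (0 : ℝ) ≤ (if D ≤ M then 1 else η ^ θ) := by
      split_ifs
      · norm_num
      · exact Real.rpow_nonneg hη _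
    have h2 : 0 ≤ ((max (D - 1) 1 : ℕ) : ℝ) ^ (-(1 + s)) := Real.rpow_nonneg (Nat.cast_nonneg _) _
    have h3 : 0 ≤ t ^ (-θ) := Real.rpow_nonneg ht.le _
    exact mul_nonneg h3 (mul_nonneg h2 h1)
  rw [Finset.sum_congr rfl fun D _ => hterm D, ← ENNReal.ofReal_sum_of_nonneg fun D _ => hFn D]
  apply ENNReal.ofReal_le_ofReal
  rw [hF, ← Finset.mul_sum]
  have ht0 : 0 ≤ t ^ (-θ) := Real.rpow_nonneg ht.le _
  apply mul_le_mul_of_nonneg_left _ ht0
  have hηθ : 0 ≤ η ^ θ := Real.rpow_nonneg hη _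
  have hlog : 0 ≤ Real.log M := Real.log_natCast_nonneg M
  cases L with
  | zero =>
    have h1 : (0 : ℝ) < 1 / s := by positivity
    simp only [Nat.lt_one_iff, Finset.Icc_eq_empty_of_lt, Finset.sum_empty, zero_lt_one]
    positivity
  | succ n =>
    have h1 : ∀ n : ℕ, ∑ D ∈ Finset.Icc 1 (n + 1), (((max (D - 1) 1 : ℕ) : ℝ) ^ (-(1 + s)) *
        (if D ≤ M then 1 else η ^ θ)) = 1 + ∑ i ∈ Finset.range n, (((i : ℝ) + 1) ^ (-(1 + s)) *
        (if i + 2 ≤ M then 1 else η ^ θ)) := by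
      intro n
      induction n with
      | zero => simp [hM]
      | succ n ih =>
        rw [Finset.sum_Icc_succ_top (by omega), ih, Finset.sum_range_succ]
        have e1 : max (n + 1 + 1 - 1) 1 = n + 1 := by omega
        rw [e1]
        push_cast
        ring
    rw [h1 n]
    have h2 : ∀ i ∈ Finset.range n, (((i : ℝ) + 1) ^ (-(1 + s)) *
        (if i + 2 ≤ M then 1 else η ^ θ)) ≤ (if i + 2 ≤ M then 1 / ((i : ℝ) + 1) else 0) +
          η ^ θ * ((i : ℝ) + 1) ^ (-(1 + s)) := by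
      intro i _
      have hi1 : (1 : ℝ) ≤ (i : ℝ) + 1 := by
        have : (0 : ℝ) ≤ i := Nat.cast_nonneg _
        linarith
      have h3 : 0 ≤ ((i : ℝ) + 1) ^ (-(1 + s)) := by positivity
      split_ifs
      · have h4 : ((i : ℝ) + 1) ^ (-(1 + s)) ≤ 1 / ((i : ℝ) + 1) := by
          rw [one_div, ← Real.rpow_neg_one]
          exact Real.rpow_le_rpow_of_exponent_le hi1 (by linarith)
        have h5 := mul_nonneg hηθ h3
        linarith
      · rw [zero_add, mul_comm]
    have h3 := Finset.sum_le_sum h2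
    rw [Finset.sum_add_distrib, ← Finset.mul_sum] at h3
    have h4 := harm M n
    have h5 := mul_le_mul_of_nonneg_left (sum_pow s hs0 n) hηθ
    linarith

end Pool.Agent.H97.CE
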