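import Pool.Agent.H99.CE.Targets

/-!
# Row NNT: the neutral stretches from the first box
-/

set_option autoImplicit false

open MeasureTheory ProbabilityTheory Filter Topology
open scoped ENNReal
open Pool.Agent.H95 Pool.Agent.H95.Cop Pool.Agent.H96.Cop Pool.Agent.H99.CE

namespace Pool.Agent.H97.CE

private theorem geo (y : ℝ) (hy : 0 ≤ y) (hy1 : 6 * y ≤ 1) (J : ℕ) :
    ∑ j ∈ Finset.range J, (1 + (j : ℝ)) * y ^ (j - 1) ≤ 4 := by
  have key : ∀ J : ℕ, ∑ j ∈ Finset.range (J + 1), (1 + (j : ℝ)) * y ^ (j - 1) ≤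
      4 - 3 * (2 * y) ^ J := by
    intro J
    induction J with
    | zero => simp; norm_num
    | succ J ih =>
      rw [Finset.sum_range_succ]
      have h1 : (1 + ((J + 1 : ℕ) : ℝ)) ≤ 2 * 2 ^ J := by
        have h2 : J + 2 ≤ 2 ^ (J + 1) := Nat.lt_two_pow_self (n := J + 1)
        have h3 : ((J + 2 : ℕ) : ℝ) ≤ ((2 ^ (J + 1) : ℕ) : ℝ) := by exact_mod_cast h2
        push_cast at h3 ⊢
        rw [pow_succ] at h3
        linarith
      have h2 : (J + 1 : ℕ) - 1 = J := by omega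
      rw [h2]
      have h3 : (1 + ((J + 1 : ℕ) : ℝ)) * y ^ J ≤ 2 * (2 * y) ^ J := by
        rw [mul_pow, ← mul_assoc]
        exact mul_le_mul_of_nonneg_right h1 (by positivity)
      have h4 : (2 * y) ^ (J + 1) = (2 * y) ^ J * (2 * y) := pow_succ _ _
      have h5 : 0 ≤ (2 * y) ^ J := by positivity
      rw [h4]
      nlinarith
  cases J with
  | zero => simp
  | succ J =>
    have h5 : 0 ≤ (2 * y) ^ J := by positivity
    linarith [key J]

private theorem eT_le (Vb : ℕ → ℝ≥0∞) (m α : ℝ) (n0 : ℕ) (hα : 0 < α) (h2 : 2 ≤ n0)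
    (hV : ∀ n, ∑ a ∈ Finset.range n, Vb a * ENNReal.ofReal ((n0 : ℝ) ^ (α * a / n0)) ≤
      ENNReal.ofReal m) (j c : ℕ) (hc : c < n0) :
    eT Vb (TT n0 j) c ≤ ENNReal.ofReal (((n0 : ℝ) ^ (-α)) ^ (j - 1) * m) := by
  have hn1 : (1 : ℝ) ≤ n0 := by exact_mod_cast (show 1 ≤ n0 by omega)
  have hn0 : (0 : ℝ) < n0 := by linarith
  set y : ℝ := ((n0 : ℝ) ^ (-α)) ^ (j - 1) with hy
  have hy0 : 0 ≤ y := by positivity
  set g : ℕ → ℝ≥0∞ := fun a =>
    ENNReal.ofReal y * (Vb a * ENNReal.ofReal ((n0 : ℝ) ^ (α * a / n0))) with hg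
  have h3 : ∀ a : ℕ, (j - 1) * n0 ≤ a → Vb a ≤ g a := by
    intro a ha
    have h4 : 1 ≤ y * (n0 : ℝ) ^ (α * a / n0) := by
      have h5 : y = (n0 : ℝ) ^ (-(α * ((j - 1 : ℕ) : ℝ))) := by
        rw [hy, ← Real.rpow_natCast, ← Real.rpow_mul hn0.le]
        congr 1
        ring
      rw [h5, ← Real.rpow_add hn0]
      apply Real.one_le_rpow hn1
      have h6 : (((j - 1) * n0 : ℕ) : ℝ) ≤ a := by exact_mod_cast ha
      rw [Nat.cast_mul] at h6
      have h7 : ((j - 1 : ℕ) : ℝ) ≤ a / n0 := by rwa [le_div_iff₀ hn0]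
      have h8 : α * ((j - 1 : ℕ) : ℝ) ≤ α * (a / n0) := mul_le_mul_of_nonneg_left h7 hα.le
      have h9 : α * a / n0 = α * (a / n0) := by ring
      rw [h9]
      linarith
    have h5 : g a = Vb a * ENNReal.ofReal (y * (n0 : ℝ) ^ (α * a / n0)) := by
      rw [hg, ENNReal.ofReal_mul hy0]
      simp only
      ring
    rw [h5]
    calc Vb a = Vb a * 1 := (mul_one _).symm
      _ ≤ Vb a * ENNReal.ofReal (y * (n0 : ℝ) ^ (α * a / n0)) := by
          apply mul_le_mul_right
          rw [← ENNReal.ofReal_one]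
          exact ENNReal.ofReal_le_ofReal h4
  unfold eT TT
  have h4 : ∑ c' ∈ Finset.Ico (j * n0) ((j + 1) * n0), (if c ≤ c' then Vb (c' - c) else 0) ≤
      ∑ c' ∈ (Finset.Ico (j * n0) ((j + 1) * n0)).filter (fun c' => c ≤ c'), g (c' - c) := by
    rw [← Finset.sum_filter]
    refine Finset.sum_le_sum fun c' hc' => h3 _ ?_
    rw [Finset.mem_filter, Finset.mem_Ico] at hc'
    rcases Nat.eq_zero_or_pos j with hj | hj
    · subst hj
      simp
    · have h5 : (j - 1) * n0 + n0 = j * n0 := by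
        have : j - 1 + 1 = j := by omega
        calc (j - 1) * n0 + n0 = (j - 1 + 1) * n0 := by ring
          _ = j * n0 := by rw [this]
      omega
  have h5 : ∑ c' ∈ (Finset.Ico (j * n0) ((j + 1) * n0)).filter (fun c' => c ≤ c'), g (c' - c) =
      ∑ a ∈ ((Finset.Ico (j * n0) ((j + 1) * n0)).filter (fun c' => c ≤ c')).image
        (fun c' => c' - c), g a := by
    rw [Finset.sum_image]
    intro a ha b hb hab
    rw [Finset.mem_coe, Finset.mem_filter] at ha hb
    simp only at hab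
    omega
  have h6 : ∑ a ∈ ((Finset.Ico (j * n0) ((j + 1) * n0)).filter (fun c' => c ≤ c')).image
        (fun c' => c' - c), g a ≤ ∑ a ∈ Finset.range ((j + 1) * n0), g a := by
    apply Finset.sum_le_sum_of_subset
    intro a ha
    rw [Finset.mem_image] at ha
    obtain ⟨c', hc', rfl⟩ := ha
    rw [Finset.mem_filter, Finset.mem_Ico] at hc'
    rw [Finset.mem_range]
    omega
  refine h4.trans (h5.le.trans (h6.trans ?_))
  rw [hg, ← Finset.mul_sum, ENNReal.ofReal_mul hy0]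
  exact mul_le_mul_right (hV _) _

theorem pf_NNT : T_NNT := by
  intro Vb m α θ δ n0 hα hαδ hδ hθ hθ1 hm hn0 hy hV
  have hn1 : (1 : ℝ) ≤ n0 := by exact_mod_cast (show 1 ≤ n0 by omega)
  have hn0' : (0 : ℝ) < n0 := by linarith
  have hθ0 : 0 < θ := by linarith
  set y0 : ℝ := (n0 : ℝ) ^ (-α) with hy0
  have hy00 : 0 ≤ y0 := by positivity
  have hy01 : y0 ≤ 1 := Real.rpow_le_one_of_one_le_of_nonpos hn1 (by linarith)
  have hS : ∀ j : ℕ, ∑ c ∈ Finset.range n0, eT Vb (TT n0 j) c ≤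
      ENNReal.ofReal (n0 * m * y0 ^ (j - 1)) := by
    intro j
    calc ∑ c ∈ Finset.range n0, eT Vb (TT n0 j) c ≤
        ∑ _c ∈ Finset.range n0, ENNReal.ofReal (y0 ^ (j - 1) * m) :=
          Finset.sum_le_sum fun c hc => eT_le Vb m α n0 hα hn0 hV j c (Finset.mem_range.1 hc)
      _ = ENNReal.ofReal (n0 * m * y0 ^ (j - 1)) := by
          rw [Finset.sum_const, Finset.card_range, nsmul_eq_mul,
            ← ENNReal.ofReal_natCast, ← ENNReal.ofReal_mul (Nat.cast_nonneg _)]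
          congr 1
          ring
  refine ⟨fun j => (hS j).trans (ENNReal.ofReal_le_ofReal ?_), fun J => ?_⟩
  · have h1 : y0 ^ (j - 1) ≤ 1 := pow_le_one₀ hy00 hy01
    have h2 : 0 ≤ (n0 : ℝ) * m := by positivity
    nlinarith
  · set y : ℝ := (n0 : ℝ) ^ (-(α * θ)) with hydef
    have hyy : y0 ^ θ = y := by
      rw [hy0, hydef, ← Real.rpow_mul hn0'.le]
      congr 1
      ring
    have hyn : 0 ≤ y := by positivity
    have hterm : ∀ j : ℕ, om j * (∑ c ∈ Finset.range n0, eT Vb (TT n0 j) c) ^ θ ≤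
        ENNReal.ofReal ((n0 * m) ^ θ * ((1 + (j : ℝ)) * y ^ (j - 1))) := by
      intro j
      have h1 : (∑ c ∈ Finset.range n0, eT Vb (TT n0 j) c) ^ θ ≤
          ENNReal.ofReal ((n0 * m) ^ θ * y ^ (j - 1)) := by
        refine (ENNReal.rpow_le_rpow (hS j) hθ0.le).trans (le_of_eq ?_)
        rw [ENNReal.ofReal_rpow_of_nonneg (by positivity) hθ0.le,
          Real.mul_rpow (by positivity) (by positivity)]
        congr 2
        rw [← hyy, ← Real.rpow_natCast, ← Real.rpow_natCast, ← Real.rpow_mul hy00,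
          ← Real.rpow_mul hy00]
        congr 1
        ring
      have h2 : om j = ENNReal.ofReal (1 + (j : ℝ)) := by
        unfold om
        rw [ENNReal.ofReal_add (by norm_num) (Nat.cast_nonneg _), ENNReal.ofReal_one,
          ENNReal.ofReal_natCast]
      rw [h2]
      refine (mul_le_mul_right h1 _).trans (le_of_eq ?_)
      rw [← ENNReal.ofReal_mul (by positivity)]
      congr 1
      ring
    refine (Finset.sum_le_sum fun j _ => hterm j).trans ?_
    rw [← ENNReal.ofReal_sum_of_nonneg (fun j _ => by positivity)]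
    apply ENNReal.ofReal_le_ofReal
    rw [← Finset.mul_sum, mul_comm 4]
    exact mul_le_mul_of_nonneg_left (geo y hyn (by linarith) J) (by positivity)

end Pool.Agent.H97.CE
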